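import Pool.Agent.H5.QH.Targets

/-!
MP_63b6b1_nt, row HADD: adding a hyperbolic plane.
-/

set_option autoImplicit false

open NumberField IsDedekindDomain Matrix Pool.Agent.H32.QC Pool.Agent.H34.N6 Pool.Agent.H5.QH

namespace Pool.Agent.H69.QH

/-- The embedding of the last coordinates. -/
def addEmb {F : Type} [Field F] (n : ℕ) : (Fin n → F) →ₗ[F] (Fin (n + 2) → F) where
  toFun x := vecCons 0 (vecCons 0 x)
  map_add' x y := by
    funext i
    refine Fin.cases ?_ (fun j => ?_) i
    · simp
    · refine Fin.cases ?_ (fun k => ?_) j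
      · simp
      · simp
  map_smul' c x := by
    funext i
    refine Fin.cases ?_ (fun j => ?_) i
    · simp
    · refine Fin.cases ?_ (fun k => ?_) j
      · simp
      · simp

theorem addEmb_inj {F : Type} [Field F] (n : ℕ) :
    LinearMap.ker (addEmb (F := F) n) = ⊥ := by
  rw [LinearMap.ker_eq_bot]
  intro x y h
  funext k
  have h1 := congrFun h k.succ.succ
  simpa [addEmb] using h1

theorem add_form {F : Type} [Field F] (n : ℕ) (b : Fin n → F) (u v : Fin (n + 2) → F) :
    u ⬝ᵥ (diagonal (vecCons 1 (vecCons (-1) b)) *ᵥ v) =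
      u 0 * v 0 - u 1 * v 1 + ∑ i : Fin n, u i.succ.succ * (b i * v i.succ.succ) := by
  unfold dotProduct
  rw [Fin.sum_univ_succ, Fin.sum_univ_succ]
  simp only [mulVec_diagonal, cons_val_zero, cons_val_succ]
  have h1 : (Fin.succ (0 : Fin (n + 1))) = 1 := rfl
  rw [h1]
  ring

theorem pf_ADD : T_ADD := by
  intro F _ n r b h
  obtain ⟨B, hB, hB0⟩ := h
  set e : Fin (n + 2) → F := vecCons 1 (vecCons 1 0) with he
  have he0 : e 0 = 1 := by simp [he]
  have he1 : e 1 = 1 := by simp [he]
  have he2 : ∀ i : Fin n, e i.succ.succ = 0 := by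
    intro i
    simp [he]
  have hm0 : ∀ x : Fin n → F, addEmb n x 0 = 0 := by
    intro x
    simp [addEmb]
  have hm1 : ∀ x : Fin n → F, addEmb n x 1 = 0 := by
    intro x
    simp [addEmb]
  have hm2 : ∀ (x : Fin n → F) (i : Fin n), addEmb n x i.succ.succ = x i := by
    intro x i
    simp [addEmb]
  refine ⟨Fin.cons e fun i => addEmb n (B i), ?_, ?_⟩
  · rw [linearIndependent_finCons]
    constructor
    · exact hB.map' (addEmb n) (addEmb_inj n)
    · intro hmem
      have h1 : Submodule.span F (Set.range fun i => addEmb n (B i)) ≤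
          LinearMap.ker (LinearMap.proj (R := F) (φ := fun _ : Fin (n + 2) => F) 0) := by
        rw [Submodule.span_le]
        rintro _ ⟨i, rfl⟩
        rw [SetLike.mem_coe, LinearMap.mem_ker, LinearMap.proj_apply]
        exact hm0 _
      have h2 := h1 hmem
      rw [LinearMap.mem_ker, LinearMap.proj_apply, he0] at h2
      exact one_ne_zero h2
  · intro i j
    refine Fin.cases ?_ (fun i => ?_) i
    · refine Fin.cases ?_ (fun j => ?_) j
      · rw [Fin.cons_zero, add_form, he0, he1]
        simp only [he2, mul_zero, Finset.sum_const_zero]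
        ring
      · rw [Fin.cons_zero, Fin.cons_succ, add_form, hm0, hm1]
        simp only [he2, zero_mul, mul_zero, Finset.sum_const_zero]
        ring
    · refine Fin.cases ?_ (fun j => ?_) j
      · rw [Fin.cons_zero, Fin.cons_succ, add_form, hm0, hm1]
        simp only [he2, zero_mul, mul_zero, Finset.sum_const_zero]
        ring
      · rw [Fin.cons_succ, Fin.cons_succ, add_form, hm0, hm1]
        simp only [hm2, zero_mul, sub_zero, zero_add]
        have h3 := hB0 i j
        unfold dotProduct at h3
        simp only [mulVec_diagonal] at h3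
        exact h3

end Pool.Agent.H69.QH
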