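import Pool.Agent.H5.QH.Targets

/-!
MP_63b6b1_nt, row HISV: equivalent forms are isotropic together.
-/

set_option autoImplicit false

open NumberField IsDedekindDomain Matrix Pool.Agent.H32.QC Pool.Agent.H34.N6 Pool.Agent.H5.QH

namespace Pool.Agent.H69.QH

theorem isv_form {F : Type} [Field F] (n : ℕ) (a : Fin n → F) (x : Fin n → F) :
    ∑ i, a i * x i ^ 2 = x ⬝ᵥ (diagonal a *ᵥ x) := by
  unfold dotProduct
  apply Finset.sum_congr rfl
  intro i _
  rw [mulVec_diagonal]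
  ring

theorem isv_trans {F : Type} [Field F] (n : ℕ) (a b : Fin n → F)
    (Q : Matrix (Fin n) (Fin n) F) (h : Qᵀ * diagonal a * Q = diagonal b) (x : Fin n → F) :
    ∑ i, b i * x i ^ 2 = ∑ i, a i * (Q *ᵥ x) i ^ 2 := by
  rw [isv_form, isv_form, ← h, ← mulVec_mulVec, ← mulVec_mulVec, dotProduct_mulVec,
    vecMul_transpose]

theorem pf_ISV : T_ISV := by
  intro F _ n a b Q hQ h
  constructor
  · rintro ⟨y, hy, hy0⟩
    refine ⟨Q⁻¹ *ᵥ y, ?_, ?_⟩
    · intro h0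
      apply hy
      have h1 : Q *ᵥ (Q⁻¹ *ᵥ y) = y := by
        rw [mulVec_mulVec, mul_nonsing_inv Q hQ, one_mulVec]
      rw [← h1, h0, mulVec_zero]
    · rw [isv_trans n a b Q h, mulVec_mulVec, mul_nonsing_inv Q hQ, one_mulVec]
      exact hy0
  · rintro ⟨x, hx, hx0⟩
    refine ⟨Q *ᵥ x, ?_, ?_⟩
    · intro h0
      apply hx
      have h1 : Q⁻¹ *ᵥ (Q *ᵥ x) = x := by
        rw [mulVec_mulVec, nonsing_inv_mul Q hQ, one_mulVec]
      rw [← h1, h0, mulVec_zero]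
    · rw [← isv_trans n a b Q h]
      exact hx0

end Pool.Agent.H69.QH
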